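import Pool.Agent.Helper65.KG.Goals

/-!
# Project KG (MP_20ee5e_ag), packet SCF: scaling for homogeneous functions
-/

set_option autoImplicit false

open MeasureTheory Set

namespace Pool.Agent.Helper16.KG.SCF

open Pool.Agent.Helper70.KN Pool.Agent.Helper65.KG

theorem cont_zr {N : ℕ} (J : Finset (Fin N)) : Continuous (zr J : (Fin N → ℝ) → Fin N → ℝ) := by
  refine continuous_pi fun i => ?_
  unfold zr
  by_cases h : i ∈ J
  · simp only [h, if_true]
    exact continuous_const
  · simp only [h, if_false]
    exact continuous_apply i

theorem det_diag {N : ℕ} (J : Finset (Fin N)) (l : ℝ) :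
    (Matrix.diagonal fun k : Fin N => if k ∈ J then (1 : ℝ) else l).det = l ^ (N - J.card) := by
  rw [Matrix.det_diagonal, Finset.prod_ite, Finset.prod_const_one, one_mul, Finset.prod_const]
  congr 1
  have h : (Finset.univ.filter fun k : Fin N => k ∉ J) = Jᶜ := by
    ext k
    simp
  rw [h, Finset.card_compl, Fintype.card_fin]

theorem t : S_SCF := by
  classical
  intro N V L ω hcut f hf hinv J l hl0 hl1
  obtain ⟨-, -, hnew, hhom, -, -, hcont⟩ := pRH N V L ω hcut
  obtain ⟨hCm, -, -⟩ := pMF N V hcut.1 J
  set S : Set (Fin N → ℝ) := {x | x ∈ cyl V J ∧ rho L (zr J x) < l} with hS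
  have hSm : MeasurableSet S :=
    hCm.inter (measurableSet_lt (hcont.comp (cont_zr J)).measurable measurable_const)
  have hfz : Measurable fun x : Fin N → ℝ => f (zr J x) := hf.comp (cont_zr J).measurable
  have hdet := det_diag J l
  have hpos : 0 < l ^ (N - J.card) := pow_pos hl0 _
  have hD0 : (Matrix.diagonal fun k : Fin N => if k ∈ J then (1 : ℝ) else l).det ≠ 0 := by
    rw [hdet]
    exact hpos.ne'
  have hvol := Real.smul_map_diagonal_volume_pi hD0
  rw [hdet, abs_of_pos hpos] at hvol
  have hT : ∀ x : Fin N → ℝ,
      Matrix.toLin' (Matrix.diagonal fun k : Fin N => if k ∈ J then (1 : ℝ) else l) x =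
        fun k => (if k ∈ J then (1 : ℝ) else l) * x k := by
    intro x
    funext k
    rw [Matrix.toLin'_apply, Matrix.mulVec_diagonal]
  have hTm : Measurable
      (Matrix.toLin' (Matrix.diagonal fun k : Fin N => if k ∈ J then (1 : ℝ) else l)) :=
    (LinearMap.continuous_of_finiteDimensional _).measurable
  have hpt : ∀ x : Fin N → ℝ, S.indicator (fun x => f (zr J x))
      (Matrix.toLin' (Matrix.diagonal fun k : Fin N => if k ∈ J then (1 : ℝ) else l) x) =
      (cyl V J).indicator (fun x => f (zr J x)) x := by
    intro x
    rw [hT x]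
    have hz : zr J (fun k => (if k ∈ J then (1 : ℝ) else l) * x k) = fun k => l * zr J x k := by
      funext k
      unfold zr
      by_cases hk : k ∈ J
      · simp [hk]
      · simp [hk]
    have hmem : (fun k => (if k ∈ J then (1 : ℝ) else l) * x k) ∈ S ↔ x ∈ cyl V J := by
      have h0 : (0 : Fin N → ℝ) ≤ (fun k => (if k ∈ J then (1 : ℝ) else l) * x k) ↔
          (0 : Fin N → ℝ) ≤ x := by
        constructor
        · intro h k
          have hk := h k
          simp only [Pi.zero_apply] at hk ⊢
          by_cases hkJ : k ∈ J
          · simpa [hkJ] using hk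
          · simp only [hkJ, if_false] at hk
            exact nonneg_of_mul_nonneg_right hk hl0
        · intro h k
          have hk := h k
          simp only [Pi.zero_apply] at hk ⊢
          by_cases hkJ : k ∈ J
          · simpa [hkJ] using hk
          · simp only [hkJ, if_false]
            exact mul_nonneg hl0.le hk
      have hzn : (0 : Fin N → ℝ) ≤ x → (0 : Fin N → ℝ) ≤ zr J x := by
        intro h i
        unfold zr
        split_ifs
        · exact le_refl _
        · exact h i
      constructor
      · rintro ⟨⟨h1, h2, h3⟩, h4⟩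
        have hx0 := h0.mp h1
        refine ⟨hx0, ?_, ?_⟩
        · intro j hj
          have := h2 j hj
          simpa [hj] using this
        · intro hc
          have h5 := (hnew _ (hzn hx0)).mp hc
          rw [hz, hhom _ _ hl0.le] at h4
          nlinarith
      · rintro ⟨h1, h2, h3⟩
        have hr : rho L (zr J x) < 1 := by
          by_contra hcon
          exact h3 ((hnew _ (hzn h1)).mpr (not_lt.mp hcon))
        have h6 : l * rho L (zr J x) < l := by nlinarith
        refine ⟨⟨h0.mpr h1, ?_, ?_⟩, ?_⟩
        · intro j hj
          simpa [hj] using h2 j hj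
        · rw [hz]
          intro hc
          have h7 : (0 : Fin N → ℝ) ≤ fun k => l * zr J x k := fun k =>
            mul_nonneg hl0.le (hzn h1 k)
          have h8 := (hnew _ h7).mp hc
          rw [hhom _ _ hl0.le] at h8
          linarith
        · rw [hz, hhom _ _ hl0.le]
          exact h6
    by_cases hx : x ∈ cyl V J
    · rw [indicator_of_mem (hmem.mpr hx), indicator_of_mem hx]
      show f (zr J (fun k => (if k ∈ J then (1 : ℝ) else l) * x k)) = f (zr J x)
      rw [hz]
      exact hinv _ _ hl0
    · rw [indicator_of_notMem (fun h => hx (hmem.mp h)), indicator_of_notMem hx]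
  rw [← lintegral_indicator hSm, ← lintegral_indicator hCm]
  calc ∫⁻ x, S.indicator (fun x => f (zr J x)) x
      = ∫⁻ x, S.indicator (fun x => f (zr J x)) x ∂(ENNReal.ofReal (l ^ (N - J.card)) •
          Measure.map (Matrix.toLin'
            (Matrix.diagonal fun k : Fin N => if k ∈ J then (1 : ℝ) else l)) volume) := by
        rw [hvol]
    _ = ENNReal.ofReal (l ^ (N - J.card)) * ∫⁻ x, S.indicator (fun x => f (zr J x))
          (Matrix.toLin'
            (Matrix.diagonal fun k : Fin N => if k ∈ J then (1 : ℝ) else l) x) := by
        rw [lintegral_smul_measure, lintegral_map (hfz.indicator hSm) hTm, smul_eq_mul]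
    _ = ENNReal.ofReal (l ^ (N - J.card)) *
          ∫⁻ x, (cyl V J).indicator (fun x => f (zr J x)) x := by
        rw [lintegral_congr hpt]

end Pool.Agent.Helper16.KG.SCF
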